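import Pool.Agent.helper52.IR.Spec
import Pool.Agent.helper41.MS.HD2
import Pool.Agent.helper62.HF.CTG

/-! Row ir:CTB (MP_07c750_an): counting on a stable arc. -/

set_option autoImplicit false

open scoped MatrixGroups ContDiff Topology UpperHalfPlane ComplexConjugate
open UpperHalfPlane MeasureTheory Filter Set

namespace Pool.Agent.IR

open Pool.Agent.RS
open Pool.Agent.MS (bq)
open Pool.Agent.HV (FW)

theorem CTB_mul (A B : SL(2, ℝ)) (i j : Fin 2) : (A * B).1 i j = A.1 i 0 * B.1 0 j + A.1 i 1 * B.1 1 j := by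
  change (A.1 * B.1) i j = _
  rw [Matrix.mul_apply, Fin.sum_univ_two]

theorem CTB_ent (h : SL(2, ℝ)) (x t u : ℝ) (i : Fin 2) :
    (h * nM x * aM t * lM u).1 i 1 = (h.1 i 0 * x + h.1 i 1) * Real.exp (-(t / 2)) ∧
    (h * nM x * aM t * lM u).1 i 0 = h.1 i 0 * Real.exp (t / 2) + (h * nM x * aM t * lM u).1 i 1 * u := by
  have l1 : (lM u).1 0 0 = 1 := rfl
  have l2 : (lM u).1 0 1 = 0 := rfl
  have l3 : (lM u).1 1 0 = u := rfl
  have l4 : (lM u).1 1 1 = 1 := rfl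
  have n1 : (nM x).1 0 0 = 1 := rfl
  have n2 : (nM x).1 0 1 = x := rfl
  have n3 : (nM x).1 1 0 = 0 := rfl
  have n4 : (nM x).1 1 1 = 1 := rfl
  have a1 : (aM t).1 0 0 = Real.exp (t / 2) := rfl
  have a2 : (aM t).1 0 1 = 0 := rfl
  have a3 : (aM t).1 1 0 = 0 := rfl
  have a4 : (aM t).1 1 1 = Real.exp (-(t / 2)) := rfl
  have e1 : (h * nM x * aM t * lM u).1 i 1 = (h.1 i 0 * x + h.1 i 1) * Real.exp (-(t / 2)) := by
    rw [CTB_mul, l2, l4, CTB_mul (h * nM x) (aM t) i 1, CTB_mul h (nM x) i 0, CTB_mul h (nM x) i 1, n1, n2, n3, n4, a2, a4]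
    ring
  refine ⟨e1, ?_⟩
  rw [e1, CTB_mul, l1, l3, CTB_mul (h * nM x) (aM t) i 0, CTB_mul (h * nM x) (aM t) i 1, CTB_mul h (nM x) i 0,
    CTB_mul h (nM x) i 1, n1, n2, n3, n4, a1, a2, a3, a4]
  ring

theorem CTB_exp {t : ℝ} (ht : |t| ≤ 3 / 2) : Real.exp (t / 2) ≤ 272 / 100 ∧ Real.exp (-(t / 2)) ≤ 272 / 100 := by
  have h1 := abs_le.1 ht
  have h2 : Real.exp 1 ≤ 272 / 100 := by
    have := Real.exp_one_lt_d9
    linarith
  constructor
  · exact (Real.exp_le_exp.2 (by linarith [h1.2])).trans h2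
  · exact (Real.exp_le_exp.2 (by linarith [h1.1])).trans h2

/-- the bounds for one row -/
theorem CTB_row {h0 h1 x E E' u p r P R : ℝ} (hE0 : 0 < E) (hE1 : 0 < E') (hEE : E * E' = 1) (hE : E ≤ 272 / 100) (hE' : E' ≤ 272 / 100)
    (hu : |u| ≤ 1 / 4) (hx : |x| ≤ 2) (hr : r = (h0 * x + h1) * E') (hp : p = h0 * E + r * u) (hP : |p| ≤ P) (hR : |r| ≤ R) :
    |h0| ≤ (P + R / 4) * (272 / 100) ∧ |h1| ≤ R * (272 / 100) + 2 * ((P + R / 4) * (272 / 100)) := by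
  have e1 : h0 = (p - r * u) * E' := by
    have : p - r * u = h0 * E := by linarith
    rw [this, mul_assoc, hEE, mul_one]
  have e2 : h1 = r * E - h0 * x := by
    have : r * E = (h0 * x + h1) * (E * E') := by
      rw [hr]
      ring
    rw [this, hEE]
    ring
  have hR0 : 0 ≤ R := (abs_nonneg _).trans hR
  have hP0 : 0 ≤ P := (abs_nonneg _).trans hP
  have f1 : |r * u| ≤ R / 4 := by
    rw [abs_mul]
    calc |r| * |u| ≤ R * (1 / 4) := mul_le_mul hR hu (abs_nonneg _) hR0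
      _ = R / 4 := by ring
  have f2 : |h0| ≤ (P + R / 4) * (272 / 100) := by
    rw [e1, abs_mul, abs_of_pos hE1]
    refine mul_le_mul ?_ hE' hE1.le (by positivity)
    exact (abs_sub _ _).trans (add_le_add hP f1)
  refine ⟨f2, ?_⟩
  rw [e2]
  refine (abs_sub _ _).trans ?_
  refine add_le_add ?_ ?_
  · rw [abs_mul, abs_of_pos hE0]
    exact mul_le_mul hR hE hE0.le hR0
  · rw [abs_mul]
    calc |h0| * |x| ≤ ((P + R / 4) * (272 / 100)) * 2 := mul_le_mul f2 hx (abs_nonneg _) (by positivity)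
      _ = 2 * ((P + R / 4) * (272 / 100)) := by ring

theorem CTB_abs {q b : ℝ} (hb : b ≤ 1 / 100) (h : |q - 1| ≤ b) : |q| ≤ 101 / 100 ∧ 99 / 100 ≤ q := by
  have h1 := abs_le.1 h
  exact ⟨abs_le.2 ⟨by linarith [h1.1], by linarith [h1.2]⟩, by linarith [h1.1]⟩

theorem CTB_eight (h : SL(2, ℝ)) (x t u b v : ℝ) (hb : 0 < b) (hb8 : b ≤ 1 / 100) (hv : 0 ≤ v) (hv1 : v ≤ 1)
    (hx : |x| ≤ 2) (ht : |t| ≤ 3 / 2) (hu : |u| ≤ 1 / 4)
    (hq : bq b (b * v) b (h * nM x * aM t * lM u)) : ∀ i j, |h.1 i j| ≤ 8 := by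
  obtain ⟨q1, q2, q3, q4⟩ := hq
  have hbv : b * v ≤ 1 / 100 := by nlinarith
  obtain ⟨E1, E2⟩ := CTB_exp ht
  have hEE : Real.exp (t / 2) * Real.exp (-(t / 2)) = 1 := by
    rw [← Real.exp_add, add_neg_cancel, Real.exp_zero]
  obtain ⟨a1, a2⟩ := CTB_ent h x t u 0
  obtain ⟨c1, c2⟩ := CTB_ent h x t u 1
  have r0 := CTB_row (Real.exp_pos _) (Real.exp_pos _) hEE E1 E2 hu hx a1 a2 (CTB_abs hb8 q1).1 (q3.trans hbv)
  have r1 := CTB_row (Real.exp_pos _) (Real.exp_pos _) hEE E1 E2 hu hx c1 c2 (q4.trans hb8) (CTB_abs hb8 q2).1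
  intro i j
  fin_cases i <;> fin_cases j
  · exact r0.1.trans (by norm_num)
  · exact r0.2.trans (by norm_num)
  · exact r1.1.trans (by norm_num)
  · exact r1.2.trans (by norm_num)

theorem CTB_dist (h : SL(2, ℝ)) (x x' t t' u u' b v : ℝ) (hb : 0 < b) (hb8 : b ≤ 1 / 100) (hv : 0 ≤ v) (hv1 : v ≤ 1)
    (ht : |t| ≤ 3 / 2) (ht' : |t'| ≤ 3 / 2) (hu : |u| ≤ 1 / 4)
    (hq : bq b (b * v) b (h * nM x * aM t * lM u)) (hq' : bq b (b * v) b (h * nM x' * aM t' * lM u')) : |x - x'| ≤ v := by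
  obtain ⟨q1, q2, q3, q4⟩ := hq
  obtain ⟨r1, r2, r3, r4⟩ := hq'
  have hbv : b * v ≤ 1 / 100 := by nlinarith
  have hbv0 : 0 ≤ b * v := mul_nonneg hb.le hv
  obtain ⟨E1, E2⟩ := CTB_exp ht
  obtain ⟨F1, F2⟩ := CTB_exp ht'
  have hEE : Real.exp (t / 2) * Real.exp (-(t / 2)) = 1 := by
    rw [← Real.exp_add, add_neg_cancel, Real.exp_zero]
  have hFF : Real.exp (t' / 2) * Real.exp (-(t' / 2)) = 1 := by
    rw [← Real.exp_add, add_neg_cancel, Real.exp_zero]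
  obtain ⟨a1, a2⟩ := CTB_ent h x t u 0
  obtain ⟨c1, -⟩ := CTB_ent h x' t' u' 0
  have hEp := Real.exp_pos (t / 2)
  have hFp := Real.exp_pos (t' / 2)
  have hEp' := Real.exp_pos (-(t / 2))
  generalize (h * nM x * aM t * lM u).1 0 1 = r at *
  generalize (h * nM x * aM t * lM u).1 0 0 = p at *
  generalize (h * nM x' * aM t' * lM u').1 0 1 = r' at *
  generalize Real.exp (t / 2) = E at *
  generalize Real.exp (-(t / 2)) = E' at *
  generalize Real.exp (t' / 2) = F at *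
  generalize Real.exp (-(t' / 2)) = F' at *
  generalize h.1 0 0 = h0 at *
  generalize h.1 0 1 = h1 at *
  have e1 : h0 * (x - x') = r * E - r' * F := by
    have g1 : r * E = (h0 * x + h1) * (E * E') := by
      rw [a1]
      ring
    have g2 : r' * F = (h0 * x' + h1) * (F * F') := by
      rw [c1]
      ring
    rw [g1, g2, hEE, hFF]
    ring
  have e2 : |h0 * (x - x')| ≤ 2 * (b * v * (272 / 100)) := by
    rw [e1]
    refine (abs_sub _ _).trans ?_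
    rw [abs_mul, abs_mul, abs_of_pos hEp, abs_of_pos hFp]
    have g1 : |r| * E ≤ b * v * (272 / 100) := mul_le_mul q3 E1 hEp.le hbv0
    have g2 : |r'| * F ≤ b * v * (272 / 100) := mul_le_mul r3 F1 hFp.le hbv0
    linarith
  have e3 : h0 = (p - r * u) * E' := by
    have : p - r * u = h0 * E := by linarith
    rw [this, mul_assoc, hEE, mul_one]
  have f1 : |r * u| ≤ 1 / 100 * (1 / 4) := by
    rw [abs_mul]
    exact mul_le_mul (q3.trans hbv) hu (abs_nonneg _) (by norm_num)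
  have f2 : 98 / 100 ≤ p - r * u := by
    have := (CTB_abs hb8 q1).2
    have := (abs_le.1 f1).2
    linarith
  have f3 : 36 / 100 ≤ E' := by
    have : 1 ≤ 272 / 100 * E' := by
      rw [← hEE]
      exact mul_le_mul_of_nonneg_right E1 hEp'.le
    linarith
  have f4 : 35 / 100 ≤ h0 := by
    rw [e3]
    have : (98 / 100 : ℝ) * (36 / 100) ≤ (p - r * u) * E' := mul_le_mul f2 f3 (by norm_num) (by linarith)
    linarith
  rw [abs_mul, abs_of_pos (by linarith : (0 : ℝ) < h0)] at e2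
  have e5 : 35 / 100 * |x - x'| ≤ h0 * |x - x'| := mul_le_mul_of_nonneg_right f4 (abs_nonneg _)
  have e6 : b * v ≤ 1 / 100 * v := mul_le_mul_of_nonneg_right hb8 hv
  linarith [abs_nonneg (x - x')]

theorem CTB_conj (hGLC : GLC_stmt) (k b v : ℝ) (hv : v = Real.exp (-k)) (q : SL(2, ℝ)) (hq : bq b b (b * v) q) :
    bq b (b * v) b (aM (-k) * q * (aM (-k))⁻¹) := by
  have hadd := hGLC.2.2.2.2.2.2.2.2.2.2.1
  have h0 : aM 0 = 1 := by
    have := hadd 0 0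
    rw [add_zero] at this
    exact (left_eq_mul.1 this)
  have hinv : (aM (-k))⁻¹ = aM k := by
    rw [inv_eq_iff_mul_eq_one, ← hadd, neg_add_cancel, h0]
  rw [hinv]
  obtain ⟨q1, q2, q3, q4⟩ := hq
  have a1 : (aM (-k)).1 0 0 = Real.exp (-k / 2) := rfl
  have a2 : (aM (-k)).1 0 1 = 0 := rfl
  have a3 : (aM (-k)).1 1 0 = 0 := rfl
  have a4 : (aM (-k)).1 1 1 = Real.exp (-(-k / 2)) := rfl
  have b1 : (aM k).1 0 0 = Real.exp (k / 2) := rfl
  have b2 : (aM k).1 0 1 = 0 := rfl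
  have b3 : (aM k).1 1 0 = 0 := rfl
  have b4 : (aM k).1 1 1 = Real.exp (-(k / 2)) := rfl
  have e1 : Real.exp (-k / 2) * Real.exp (k / 2) = 1 := by
    rw [← Real.exp_add, ← Real.exp_zero]
    congr 1
    ring
  have e2 : Real.exp (-(-k / 2)) * Real.exp (-(k / 2)) = 1 := by
    rw [← Real.exp_add, ← Real.exp_zero]
    congr 1
    ring
  have e3 : Real.exp (-k / 2) * Real.exp (-(k / 2)) = v := by
    rw [← Real.exp_add, hv]
    congr 1
    ring
  have e4 : Real.exp (-(-k / 2)) * Real.exp (k / 2) * v = 1 := by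
    rw [hv, ← Real.exp_add, ← Real.exp_add, ← Real.exp_zero]
    congr 1
    ring
  have hvp : 0 < v := by
    rw [hv]
    exact Real.exp_pos _
  have m00 : (aM (-k) * q * aM k).1 0 0 = q.1 0 0 := by
    rw [CTB_mul, CTB_mul (aM (-k)) q 0 0, CTB_mul (aM (-k)) q 0 1, a1, a2, b1, b3]
    calc _ = q.1 0 0 * (Real.exp (-k / 2) * Real.exp (k / 2)) := by ring
      _ = _ := by rw [e1, mul_one]
  have m11 : (aM (-k) * q * aM k).1 1 1 = q.1 1 1 := by
    rw [CTB_mul, CTB_mul (aM (-k)) q 1 0, CTB_mul (aM (-k)) q 1 1, a3, a4, b2, b4]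
    calc _ = q.1 1 1 * (Real.exp (-(-k / 2)) * Real.exp (-(k / 2))) := by ring
      _ = _ := by rw [e2, mul_one]
  have m01 : (aM (-k) * q * aM k).1 0 1 = q.1 0 1 * v := by
    rw [CTB_mul, CTB_mul (aM (-k)) q 0 0, CTB_mul (aM (-k)) q 0 1, a1, a2, b2, b4]
    calc _ = q.1 0 1 * (Real.exp (-k / 2) * Real.exp (-(k / 2))) := by ring
      _ = _ := by rw [e3]
  have m10 : (aM (-k) * q * aM k).1 1 0 * v = q.1 1 0 := by
    rw [CTB_mul, CTB_mul (aM (-k)) q 1 0, CTB_mul (aM (-k)) q 1 1, a3, a4, b1, b3]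
    calc _ = q.1 1 0 * (Real.exp (-(-k / 2)) * Real.exp (k / 2) * v) := by ring
      _ = _ := by rw [e4, mul_one]
  refine ⟨by rw [m00]; exact q1, by rw [m11]; exact q2, ?_, ?_⟩
  · rw [m01, abs_mul, abs_of_pos hvp]
    exact mul_le_mul_of_nonneg_right q3 hvp.le
  · have : |(aM (-k) * q * aM k).1 1 0| * v ≤ b * v := by
      rw [← abs_of_pos hvp, ← abs_mul, abs_of_pos hvp, m10]
      exact q4
    exact le_of_mul_le_mul_right this hvp

open Classical in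
/-- one half of the arc -/
theorem CTB_one (hGLC : GLC_stmt) (Γ : Subgroup SL(2, ℝ)) (N₀ : ℕ) (hN₀ : ∀ y g : SL(2, ℝ),
    {γ : Γ | ∀ i j, |(y⁻¹ * (γ : SL(2, ℝ)) * g).1 i j| ≤ 8}.Finite ∧
    {γ : Γ | ∀ i j, |(y⁻¹ * (γ : SL(2, ℝ)) * g).1 i j| ≤ 8}.ncard ≤ N₀)
    (b k s : ℝ) (A : Finset SL(2, ℝ)) (g : SL(2, ℝ)) (T : Finset ℤ) (hb : 0 < b) (hb8 : b ≤ 1 / 100) (hk : 0 ≤ k)
    (hT : ∀ m ∈ T, ∃ X t u : ℝ, |X - s| ≤ 2 ∧ |t| ≤ 3 / 2 ∧ |u| ≤ 1 / 4 ∧ m ≤ X * Real.exp k ∧ X * Real.exp k < m + 1 ∧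
      g * nM X * aM t * lM u * aM (-k) ∈ FW Γ A b (Real.exp (-k))) :
    (T.card : ℝ) ≤ ((N₀ : ℝ) + 1) * 3 * A.card := by
  have hek : Real.exp (-k) ≤ 1 := Real.exp_le_one_iff.2 (by linarith)
  have hek0 : 0 ≤ Real.exp (-k) := (Real.exp_pos _).le
  have hn := hGLC.2.2.2.2.2.2.2.2.2.2.2.1
  let G : SL(2, ℝ) := g * nM s
  let yy : SL(2, ℝ) → SL(2, ℝ) := fun y => y * (aM (-k))⁻¹
  let Fy : SL(2, ℝ) → Finset Γ := fun y => (hN₀ (yy y) G).1.toFinset
  let Jy : SL(2, ℝ) → Γ → Finset ℤ := fun y γ =>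
    T.filter fun m => ∃ X t u : ℝ, |X - s| ≤ 2 ∧ |t| ≤ 3 / 2 ∧ |u| ≤ 1 / 4 ∧ (m : ℝ) ≤ X * Real.exp k ∧ X * Real.exp k < m + 1 ∧
      bq b (b * Real.exp (-k)) b ((yy y)⁻¹ * (γ : SL(2, ℝ)) * G * nM (X - s) * aM t * lM u)
  have hsub : T ⊆ A.biUnion fun y => (Fy y).biUnion fun γ => Jy y γ := by
    intro m hm
    obtain ⟨X, t, u, h1, ht, hu, h2, h3, y, hy, γ, hq⟩ := hT m hm
    have hq' : bq b (b * Real.exp (-k)) b ((yy y)⁻¹ * (γ : SL(2, ℝ)) * G * nM (X - s) * aM t * lM u) := by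
      have h4 := CTB_conj hGLC k b (Real.exp (-k)) rfl _ hq
      have e : (yy y)⁻¹ * (γ : SL(2, ℝ)) * G * nM (X - s) * aM t * lM u =
          aM (-k) * (y⁻¹ * (γ : SL(2, ℝ)) * (g * nM X * aM t * lM u * aM (-k))) * (aM (-k))⁻¹ := by
        have e1 : nM X = nM s * nM (X - s) := by
          rw [← hn, add_sub_cancel]
        show (y * (aM (-k))⁻¹)⁻¹ * (γ : SL(2, ℝ)) * (g * nM s) * nM (X - s) * aM t * lM u = _
        rw [e1]
        group
      rw [e]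
      exact h4
    rw [Finset.mem_biUnion]
    refine ⟨y, hy, ?_⟩
    rw [Finset.mem_biUnion]
    refine ⟨γ, ?_, ?_⟩
    · rw [Set.Finite.mem_toFinset]
      exact CTB_eight _ (X - s) t u b (Real.exp (-k)) hb hb8 hek0 hek h1 ht hu hq'
    · rw [Finset.mem_filter]
      exact ⟨hm, X, t, u, h1, ht, hu, h2, h3, hq'⟩
  have hone : ∀ y γ, ((Jy y γ).card : ℝ) ≤ 3 := by
    intro y γ
    refine (Pool.Agent.HV.CTG_card (Jy y γ) 2 (by norm_num) fun i hi j hj => ?_).trans (by norm_num)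
    rw [Finset.mem_filter] at hi hj
    obtain ⟨-, X, t, u, -, ht, hu, a1, a2, hqi⟩ := hi
    obtain ⟨-, X', t', u', -, ht', hu', b1, b2, hqj⟩ := hj
    have h1 := CTB_dist ((yy y)⁻¹ * (γ : SL(2, ℝ)) * G) (X - s) (X' - s) t t' u u' b (Real.exp (-k)) hb hb8 hek0 hek ht ht' hu hqi hqj
    have h2 : |X * Real.exp k - X' * Real.exp k| ≤ 1 := by
      rw [← sub_mul, abs_mul, abs_of_pos (Real.exp_pos k)]
      have h3 : |X - X'| ≤ Real.exp (-k) := by
        have : X - s - (X' - s) = X - X' := by ring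
        rwa [this] at h1
      calc |X - X'| * Real.exp k ≤ Real.exp (-k) * Real.exp k := mul_le_mul_of_nonneg_right h3 (Real.exp_pos k).le
        _ = 1 := by rw [← Real.exp_add, neg_add_cancel, Real.exp_zero]
    have h3 := abs_le.1 h2
    rw [abs_le]
    constructor <;> linarith [h3.1, h3.2]
  have hFy : ∀ y, ((Fy y).card : ℝ) ≤ (N₀ : ℝ) + 1 := by
    intro y
    have h1 : (Fy y).card ≤ N₀ := by
      have := (hN₀ (yy y) G).2
      rw [Set.ncard_eq_toFinset_card _ (hN₀ (yy y) G).1] at this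
      exact this
    have h2 : ((Fy y).card : ℝ) ≤ N₀ := by exact_mod_cast h1
    linarith
  have h1 : (T.card : ℝ) ≤ ∑ y ∈ A, ∑ γ ∈ Fy y, ((Jy y γ).card : ℝ) := by
    have h2 : T.card ≤ ∑ y ∈ A, ∑ γ ∈ Fy y, (Jy y γ).card :=
      (Finset.card_le_card hsub).trans (Finset.card_biUnion_le.trans (Finset.sum_le_sum fun y _ => Finset.card_biUnion_le))
    exact_mod_cast h2
  refine h1.trans ?_
  calc ∑ y ∈ A, ∑ γ ∈ Fy y, ((Jy y γ).card : ℝ) ≤ ∑ y ∈ A, ∑ γ ∈ Fy y, (3 : ℝ) :=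
        Finset.sum_le_sum fun y _ => Finset.sum_le_sum fun γ _ => hone y γ
    _ = ∑ y ∈ A, ((Fy y).card : ℝ) * 3 := by
        refine Finset.sum_congr rfl fun y _ => ?_
        rw [Finset.sum_const, nsmul_eq_mul]
    _ ≤ ∑ y ∈ A, ((N₀ : ℝ) + 1) * 3 := Finset.sum_le_sum fun y _ => mul_le_mul_of_nonneg_right (hFy y) (by norm_num)
    _ = ((N₀ : ℝ) + 1) * 3 * A.card := by
        rw [Finset.sum_const, nsmul_eq_mul]
        ring

open Classical in
theorem CTB_proof (hGLC : RS.GLC_stmt) : CTB_stmt := by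
  intro Γ hΓ
  obtain ⟨N₀, hN₀⟩ := Pool.Agent.MS.HD2_fin Γ hΓ
  refine ⟨4 * (((N₀ : ℝ) + 1) * 3), by positivity, ?_⟩
  intro b k A y T hb hb8 hk hT
  let R : SL(2, ℝ) → ℝ → Finset ℤ := fun e s => T.filter fun m => ∃ X t u : ℝ, |X - s| ≤ 2 ∧ |t| ≤ 3 / 2 ∧ |u| ≤ 1 / 4 ∧
    (m : ℝ) ≤ X * Real.exp k ∧ X * Real.exp k < m + 1 ∧ (e * y) * nM X * aM t * lM u * aM (-k) ∈ FW Γ A b (Real.exp (-k))
  have hR : ∀ e s, ((R e s).card : ℝ) ≤ ((N₀ : ℝ) + 1) * 3 * A.card := by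
    intro e s
    refine CTB_one hGLC Γ N₀ hN₀ b k s A (e * y) (R e s) hb hb8 hk fun m hm => ?_
    rw [Finset.mem_filter] at hm
    exact hm.2
  have hsub : T ⊆ (R 1 2 ∪ R 1 (-2)) ∪ (R (-1) 2 ∪ R (-1) (-2)) := by
    intro m hm
    obtain ⟨X, t, u, e, he, hX, ht, hu, h1, h2, hq⟩ := hT m hm
    have hX' := abs_le.1 hX
    have hs : |X - 2| ≤ 2 ∨ |X - (-2)| ≤ 2 := by
      rcases le_total 0 X with h0 | h0
      · left
        rw [abs_le]
        constructor <;> linarith [hX'.2]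
      · right
        rw [abs_le]
        constructor <;> linarith [hX'.1]
    rw [Finset.mem_union, Finset.mem_union, Finset.mem_union]
    rcases he with rfl | rfl
    · left
      rcases hs with hs | hs
      · left
        exact Finset.mem_filter.2 ⟨hm, X, t, u, hs, ht, hu, h1, h2, hq⟩
      · right
        exact Finset.mem_filter.2 ⟨hm, X, t, u, hs, ht, hu, h1, h2, hq⟩
    · right
      rcases hs with hs | hs
      · left
        exact Finset.mem_filter.2 ⟨hm, X, t, u, hs, ht, hu, h1, h2, hq⟩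
      · right
        exact Finset.mem_filter.2 ⟨hm, X, t, u, hs, ht, hu, h1, h2, hq⟩
  have h1 : T.card ≤ ((R 1 2).card + (R 1 (-2)).card) + ((R (-1) 2).card + (R (-1) (-2)).card) :=
    (Finset.card_le_card hsub).trans ((Finset.card_union_le _ _).trans
      (add_le_add (Finset.card_union_le _ _) (Finset.card_union_le _ _)))
  have h2 : (T.card : ℝ) ≤ (((R 1 2).card : ℝ) + (R 1 (-2)).card) + (((R (-1) 2).card : ℝ) + (R (-1) (-2)).card) := by
    exact_mod_cast h1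
  have h3 := hR 1 2
  have h4 := hR 1 (-2)
  have h5 := hR (-1) 2
  have h6 := hR (-1) (-2)
  linarith

end Pool.Agent.IR
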